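import Pool.Agent.H.MP_6afacc_an.D

set_option autoImplicit false

namespace Pool.Agent.Results.MP_ecafc5_an.No

theorem result :
    ∃ (X : Type) (_ : NormedAddCommGroup X) (_ : NormedSpace ℝ X) (_ : CompleteSpace X) (γ : ℝ),
      (∀ x y : X, ‖x‖ = 1 → ‖y‖ = 1 → ∀ u : ℝ, 0 < u →
        (‖x + u • y‖ + ‖x - u • y‖) / 2 - 1 ≤ γ * u ^ 2) ∧
      ∃ D : Set X, (∀ g ∈ D, ‖g‖ ≤ 1) ∧ (∀ g ∈ D, -g ∈ D) ∧
        Dense ((Submodule.span ℝ D : Submodule ℝ X) : Set X) ∧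
        ∃ (f φ : ℕ → X) (F : ℕ → X →L[ℝ] ℝ) (a : ℕ → ℝ),
          (∀ m, ‖F m‖ = 1 ∧ F m (f m) = ‖f m‖) ∧
          (∀ t : ℝ, 0 < t → t ≤ 1 → ∀ m, φ m ∈ D ∧ t * sSup (F m '' D) ≤ F m (φ m)) ∧
          (∀ m, ∀ b : ℝ, ‖f m - a m • φ m‖ ≤ ‖f m - b • φ m‖) ∧
          (∀ m, f (m + 1) = f m - a m • φ m) ∧
          ∀ m, 1 ≤ ‖f m‖ := by
  obtain ⟨X, _, _, _, γ, D, f, φ, F, a, h1, h2, h3, h4, h5, h6, h7, h8, h9⟩ :=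
    Pool.Agent.H.MP_6afacc_an.cex
  refine ⟨X, _, _, ‹_›, γ, fun x y hx hy u _ => h1 x y hx hy u, D, fun g hg => (h2 g hg).le, h3, h4,
    f, φ, F, a, h5, fun t t0 t1 m => ⟨(h6 m).1, ?_⟩, h7, h8, h9⟩
  have a0 : 0 ≤ F m (φ m) := by
    have := (h6 m).2 _ (h3 _ (h6 m).1)
    rw [map_neg] at this
    linarith
  have a1 : sSup (F m '' D) = F m (φ m) := IsGreatest.csSup_eq
    ⟨⟨_, (h6 m).1, rfl⟩, by rintro _ ⟨g, hg, rfl⟩; exact (h6 m).2 g hg⟩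
  rw [a1]
  exact mul_le_of_le_one_left a0 t1

end Pool.Agent.Results.MP_ecafc5_an.No
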